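import Mathlib

/-!
# A generic point of a component of dimension at least three
-/

namespace Pool.Agent.Helper79.CY

open MvPolynomial

theorem three_le {c : Cardinal} (h : (6 : Cardinal) ≤ 3 + c) : (3 : Cardinal) ≤ c := by
  by_contra hc
  rw [not_le] at hc
  obtain ⟨n, rfl⟩ := Cardinal.lt_aleph0.1 (hc.trans (Cardinal.natCast_lt_aleph0 (n := 3)))
  have h1 : n < 3 := by exact_mod_cast hc
  have h2 : 6 ≤ 3 + n := by exact_mod_cast h
  omega

/-- If the field `F` is algebraic over `K(x)` and has transcendence degree at least three, the three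
elements `x j` are algebraically independent. -/
theorem algInd_of_trdeg {K Ω : Type} [Field K] [Field Ω] [Algebra K Ω] (x : Fin 3 → Ω)
    (F : IntermediateField (IntermediateField.adjoin K (Set.range x)) Ω)
    [Algebra.IsAlgebraic (IntermediateField.adjoin K (Set.range x)) F]
    (h : (3 : Cardinal) ≤ Algebra.trdeg K F) : AlgebraicIndependent K x := by
  have h1 : Algebra.trdeg K F = Algebra.trdeg K (IntermediateField.adjoin K (Set.range x)) := by
    have i1 : FaithfulSMul (IntermediateField.adjoin K (Set.range x)) F :=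
      (faithfulSMul_iff_algebraMap_injective _ _).2
        (algebraMap (IntermediateField.adjoin K (Set.range x)) F).injective
    have i2 : FaithfulSMul K (IntermediateField.adjoin K (Set.range x)) :=
      (faithfulSMul_iff_algebraMap_injective _ _).2 (algebraMap K _).injective
    have := trdeg_add_eq K (IntermediateField.adjoin K (Set.range x)) (A := F)
    rw [← this, trdeg_eq_zero (R := IntermediateField.adjoin K (Set.range x)) (A := F), add_zero]
  set E := IntermediateField.adjoin K (Set.range x) with hE
  have hx : ∀ i, x i ∈ E := fun i => IntermediateField.subset_adjoin K _ ⟨i, rfl⟩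
  let x' : Fin 3 → E := fun i => ⟨x i, hx i⟩
  have htop : IntermediateField.adjoin K (Set.range x') = ⊤ := by
    apply IntermediateField.lift_injective
    rw [IntermediateField.lift_adjoin, IntermediateField.lift_top]
    have h2 : Subtype.val '' Set.range x' = Set.range x := by
      rw [← Set.range_comp]
      rfl
    rw [h2]
  have halg : Algebra.IsAlgebraic (Algebra.adjoin K (Set.range x')) E := by
    rw [← IntermediateField.isAlgebraic_adjoin_iff_top]
    refine ⟨fun a => ?_⟩
    have ha : a ∈ IntermediateField.adjoin K (Set.range x') := by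
      rw [htop]
      trivial
    exact isAlgebraic_algebraMap (⟨a, ha⟩ : IntermediateField.adjoin K (Set.range x'))
  have hb := Algebra.IsAlgebraic.isTranscendenceBasis_of_le_trdeg_of_finite K x' (by
    rw [← h1]
    simpa using h)
  exact hb.1.map' (f := E.val) E.val.injective

/-- `CY-12b` from the inequality between height and transcendence degree. -/
theorem generic_point_of {K Ω : Type} [Field K] [Field Ω] [Algebra K Ω]
    (H : ∀ (P : Ideal (MvPolynomial (Fin 6) K)) [P.IsPrime], P.height ≤ 3 →
      (6 : Cardinal) ≤ 3 + Algebra.trdeg K (MvPolynomial (Fin 6) K ⧸ P)) (x y : Fin 3 → Ω)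
    (h : (RingHom.ker (aeval (Sum.elim x y) : MvPolynomial (Fin 3 ⊕ Fin 3) K →ₐ[K] Ω)).height ≤ 3)
    (hx : ¬ AlgebraicIndependent K x) :
    ∃ j, Transcendental (IntermediateField.adjoin K (Set.range x)) (y j) := by
  by_contra hcon
  push Not at hcon
  apply hx
  set E := IntermediateField.adjoin K (Set.range x) with hE
  let F : IntermediateField E Ω := algebraicClosure E Ω
  have hyF : ∀ j, y j ∈ F := fun j => mem_algebraicClosure_iff.2 (by
    have := hcon j
    rwa [Transcendental, not_not] at this)
  have hxF : ∀ j, x j ∈ F := fun j =>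
    F.algebraMap_mem ⟨x j, IntermediateField.subset_adjoin K _ ⟨j, rfl⟩⟩
  let z : Fin 3 ⊕ Fin 3 → F := Sum.elim (fun j => ⟨x j, hxF j⟩) (fun j => ⟨y j, hyF j⟩)
  let e : Fin 3 ⊕ Fin 3 ≃ Fin 6 := finSumFinEquiv
  let ψ : MvPolynomial (Fin 6) K →ₐ[K] F := aeval (z ∘ e.symm)
  have hker : (RingHom.ker ψ).comap (renameEquiv K e) =
      RingHom.ker (aeval (Sum.elim x y) : MvPolynomial (Fin 3 ⊕ Fin 3) K →ₐ[K] Ω) := by
    ext p
    rw [Ideal.mem_comap, RingHom.mem_ker, RingHom.mem_ker]
    have h1 : ψ (renameEquiv K e p) = aeval z p := by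
      show aeval (z ∘ e.symm) (rename e p) = _
      rw [aeval_rename]
      congr 2
      funext s
      simp
    have h2 : ((aeval z p : F) : Ω) = aeval (Sum.elim x y) p := by
      have h3 : (fun s => ((z s : F) : Ω)) = Sum.elim x y := by
        funext s
        rcases s with s | s <;> rfl
      have h4 := MvPolynomial.comp_aeval_apply (φ := (F.val.restrictScalars K : F →ₐ[K] Ω)) z p
      rw [← h3]
      exact h4
    rw [h1, ← h2]
    exact (ZeroMemClass.coe_eq_zero (x := aeval z p)).symm
  have hht : (RingHom.ker ψ).height ≤ 3 := by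
    rw [← hker] at h
    have h1 := RingEquiv.height_comap (renameEquiv K e).toRingEquiv (RingHom.ker ψ)
    rw [← h1]
    exact h
  have hprime : (RingHom.ker ψ).IsPrime := RingHom.ker_isPrime ψ
  have h6 := H (RingHom.ker ψ) hht
  have hinj : Algebra.trdeg K (MvPolynomial (Fin 6) K ⧸ RingHom.ker ψ) ≤ Algebra.trdeg K F :=
    trdeg_le_of_injective (Ideal.kerLiftAlg ψ) (Ideal.kerLiftAlg_injective ψ)
  exact algInd_of_trdeg x F (three_le (h6.trans (add_le_add le_rfl hinj)))

end Pool.Agent.Helper79.CY
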