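import Mathlib
import Pool.Agent.Helper79.CY.Generic
import Pool.Agent.Helper40.CY.Card

/-!
# A generic point of a component of dimension at least three, final form
-/

namespace Pool.Agent.Helper79.CY

open MvPolynomial

/-- CY-12b. A generic point of a component of dimension at least three: if three of the six
coordinates are algebraically dependent, then some of the other three is transcendental over them. -/
theorem generic_point {K Ω : Type} [Field K] [Field Ω] [Algebra K Ω] (x y : Fin 3 → Ω)
    (h : (RingHom.ker (aeval (Sum.elim x y) : MvPolynomial (Fin 3 ⊕ Fin 3) K →ₐ[K] Ω)).height ≤ 3)
    (hx : ¬ AlgebraicIndependent K x) :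
    ∃ j, Transcendental (IntermediateField.adjoin K (Set.range x)) (y j) :=
  generic_point_of (fun P hP hh => by
    have := Pool.Agent.Helper40.CY.card_le_height_add_trdeg P 3 (by simpa using hh)
    simpa using this) x y h hx

end Pool.Agent.Helper79.CY
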