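import Mathlib
import Pool.Agent.Helper92.CY.Defs

/-!
# The equation of `ω`
-/

namespace Pool.Agent.Helper79.CY

open MvPolynomial Pool.Agent.Helper37.RP Pool.Agent.Helper76.CY Pool.Agent.Helper92.CY

theorem col_eq {R : Type*} [CommRing R] {N : Matrix (Fin 4) (Fin 4) R} {y : Fin 4 → R}
    (h : IsLine N y) (hy : y 0 = 1) (i l : Fin 4) :
    N i l = y l * N i 0 + (-N l 0) * y i := by
  have h1 := h.key i 0 l
  rw [hy] at h1
  linear_combination h1

theorem gram_line {R : Type*} [CommRing R] {M N : Matrix (Fin 4) (Fin 4) R}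
    (hM : ∀ i j, M i j = M j i) {y : Fin 4 → R} (h : IsLine N y) (hy : y 0 = 1) (l : Fin 4) :
    gram M N 0 0 * y l = gram M N 0 l + 2 * bil M y (fun l => N l 0) * N l 0 := by
  have e1 := bil_lin M 1 0 (y l) (-N l 0) (fun i => N i 0) (fun i => N i 0) (fun i => N i 0) y
  have e2 : (fun i => y l * N i 0 + (-N l 0) * y i) = fun i => N i l := by
    funext i
    exact (col_eq h hy i l).symm
  have e3 : (fun i => (1 : R) * N i 0 + 0 * N i 0) = fun i => N i 0 := by
    funext i
    ring
  rw [e2, e3, bil_comm hM (fun i => N i 0) y] at e1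
  rw [gram_eq_bil, gram_eq_bil, e1]
  ring

theorem gram_sq {R : Type*} [CommRing R] {M N : Matrix (Fin 4) (Fin 4) R}
    (hM : ∀ i j, M i j = M j i) {y : Fin 4 → R} (h : IsLine N y) (hy : y 0 = 1)
    (hq : bil M y y = 0) :
    gram M N 0 0 * (2 * bil M y (fun l => N l 0)) ^ 2 =
      -2 * bil M (fun k => gram M N 0 k) (fun k => gram M N 0 k) := by
  have e2 : (fun k => gram M N 0 k) = fun k => gram M N 0 0 * y k +
      (-(2 * bil M y (fun l => N l 0))) * N k 0 := by
    funext k
    rw [gram_line hM h hy k]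
    ring
  rw [e2, bil_lin, hq, bil_comm hM (fun i => N i 0) y, gram_eq_bil M N 0 0]
  ring

/-- The equation of `ω`. -/
theorem omx_eq {K : Type} [Field K] (c : Ix → K) {S : Type} [CommRing S] [Algebra K S]
    (x y : Fin 4 → S) (hy : y 0 = 1) (h : OnX c x y) :
    (∀ l, aeval x (cH c 0 0) * y l = aeval x (cH c 0 l) + omx c x y *
      N4 (fun i => aeval x (lin (fun i j => pL c j i) i))
        (fun i => aeval x (lin (fun i j => pL' c j i) i)) l 0) ∧
      aeval x (cH c 0 0) * omx c x y ^ 2 = aeval x (Px c) := by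
  obtain ⟨h1, h2, h3⟩ := h
  have hM := quad_symm (S := S) (fun i j k l => pQ c k l i j)
    (fun i j k l => pQ_symm' c k l i j) x
  have hL1 : ∑ i, aeval x (lin (fun i j => pL c j i) i) * y i = 0 :=
    (onL_iff (fun i j => pL c j i) y x).1 ((onL_swap (pL c) x y).2 h1)
  have hL2 : ∑ i, aeval x (lin (fun i j => pL' c j i) i) * y i = 0 :=
    (onL_iff (fun i j => pL' c j i) y x).1 ((onL_swap (pL' c) x y).2 h2)
  have hQ : bil ((quad fun i j k l => pQ c k l i j).map (aeval x : _ →ₐ[K] S)) y y = 0 :=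
    (onQ_iff (fun i j k l => pQ c k l i j) y x).1 ((onQ_swap (pQ c) x y).2 h3)
  have hline := isLine_N4 _ _ y hL1 hL2
  have hH : ∀ i j, aeval x (cH c i j) =
      gram ((quad fun i j k l => pQ c k l i j).map (aeval x : _ →ₐ[K] S))
        (N4 (fun i => aeval x (lin (fun i j => pL c j i) i))
          (fun i => aeval x (lin (fun i j => pL' c j i) i))) i j := fun i j =>
    aeval_chow4 (fun i j => pL c j i) (fun i j => pL' c j i) (fun i j k l => pQ c k l i j) x i j
  refine ⟨fun l => ?_, ?_⟩
  · rw [hH, hH]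
    exact gram_line hM hline hy l
  · rw [hH]
    refine (gram_sq hM hline hy hQ).trans ?_
    rw [Px, map_mul, map_neg, map_ofNat]
    congr 1
    have e := map_bil ((aeval x : MvPolynomial (Fin 4) K →ₐ[K] S) : MvPolynomial (Fin 4) K →+* S)
      (quad fun i j k l => pQ c k l i j) (fun k => cH c 0 k) (fun k => cH c 0 k)
    refine Eq.trans ?_ e.symm
    have e2 : (fun k => gram ((quad fun i j k l => pQ c k l i j).map (aeval x : _ →ₐ[K] S))
        (N4 (fun i => aeval x (lin (fun i j => pL c j i) i))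
          (fun i => aeval x (lin (fun i j => pL' c j i) i))) 0 k) =
        fun k => aeval x (cH c 0 k) := by
      funext k
      rw [hH]
    rw [e2]
    rfl

end Pool.Agent.Helper79.CY
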