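import Mathlib
import Pool.Agent.Helper15.NumField

/-!
# Curves `u ^ 2 = q(s)` have infinitely many points after a finite extension
-/

namespace Pool.Agent.Helper79.CY

open Pool.Agent.Helper15

/-- The polynomial `q` as a polynomial in one variable. -/
noncomputable def mvq {R : Type*} [CommRing R] (q : Polynomial R) : MvPolynomial Unit R :=
  Polynomial.aeval (MvPolynomial.X ()) q

theorem aeval_mvq {R S : Type*} [CommRing R] [CommRing S] [Algebra R S] (q : Polynomial R)
    (a : Unit → S) : MvPolynomial.aeval a (mvq q) = Polynomial.aeval (a ()) q := by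
  rw [mvq, ← Polynomial.aeval_algHom_apply, MvPolynomial.aeval_X]

theorem pderiv_mvq {R : Type*} [CommRing R] (q : Polynomial R) (j : Unit) :
    MvPolynomial.pderiv j (mvq q) = mvq (Polynomial.derivative q) := by
  rw [mvq, mvq]
  induction q using Polynomial.induction_on' with
  | add p q hp hq => simp only [map_add, hp, hq]
  | monomial n r =>
    rw [Polynomial.aeval_monomial, Polynomial.derivative_monomial, Polynomial.aeval_monomial]
    rw [Derivation.leibniz, Derivation.leibniz_pow]
    have h1 : MvPolynomial.pderiv j (algebraMap R (MvPolynomial Unit R) r) = 0 :=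
      MvPolynomial.pderiv_C
    have h2 : MvPolynomial.pderiv j (MvPolynomial.X () : MvPolynomial Unit R) = 1 :=
      MvPolynomial.pderiv_X_self _
    rw [h1, h2, map_mul, map_natCast]
    simp only [smul_zero, add_zero, smul_eq_mul, mul_one, nsmul_eq_mul]
    ring

theorem degreeOf_mvq {R : Type*} [CommRing R] [Nontrivial R] (q : Polynomial R) (j : Unit)
    (d : ℕ) (h : q.natDegree ≤ d) : (mvq q).degreeOf j ≤ d := by
  rw [mvq, Polynomial.aeval_eq_sum_range]
  refine le_trans (MvPolynomial.degreeOf_sum_le _ _ _) ?_
  refine Finset.sup_le fun i hi => ?_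
  rw [MvPolynomial.smul_eq_C_mul]
  refine le_trans (MvPolynomial.degreeOf_C_mul_le _ _ _) ?_
  refine le_trans (MvPolynomial.degreeOf_pow_le _ _ _) ?_
  rw [show (j : Unit) = () from rfl, MvPolynomial.degreeOf_X_self, mul_one]
  have := Finset.mem_range.mp hi
  omega

/-- Curves `u ^ 2 = q(s)` have infinitely many points after a finite extension. -/
theorem exists_points (K : Type) [Field K] [NumberField K] (q : Polynomial K) (hq : q.Separable)
    (h1 : 1 ≤ q.natDegree) (h4 : q.natDegree ≤ 4) :
    ∃ (L : Type) (_ : Field L) (_ : Algebra K L), FiniteDimensional K L ∧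
      {p : L × L | p.2 ^ 2 = Polynomial.aeval p.1 q}.Infinite := by
  classical
  have hdeg : q.degree ≠ 0 := by
    intro h
    have h0 : q.natDegree = 0 := Polynomial.natDegree_eq_of_degree_eq_some h
    omega
  obtain ⟨α, hα⟩ := IsAlgClosed.exists_aeval_eq_zero (AlgebraicClosure K) q hdeg
  have hd : Polynomial.aeval α (Polynomial.derivative q) ≠ 0 := hq.aeval_derivative_ne_zero hα
  obtain ⟨L, hfin, hL⟩ := numberField_dense K (mvq q) (fun j => degreeOf_mvq q j 4 h4)
    (fun _ => α) (by rw [aeval_mvq]; exact hα) (fun j => by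
      rw [pderiv_mvq, aeval_mvq]; exact hd)
  refine ⟨L, inferInstance, inferInstance, hfin, fun hf => ?_⟩
  let T : Finset L := hf.toFinset.image Prod.fst
  have hG := hL (∏ s ∈ T, (MvPolynomial.X () - MvPolynomial.C s)) (by
    rintro x ⟨u, -, hu⟩
    rw [aeval_mvq] at hu
    have hx : x () ∈ T := by
      refine Finset.mem_image.mpr ⟨(x (), u), ?_, rfl⟩
      rw [Set.Finite.mem_toFinset]
      exact hu
    rw [map_prod]
    refine Finset.prod_eq_zero hx ?_
    simp)
  rw [Finset.prod_eq_zero_iff] at hG
  obtain ⟨s, -, hs⟩ := hG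
  have := congrArg (MvPolynomial.eval (fun _ => s + 1)) hs
  simp at this

end Pool.Agent.Helper79.CY
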